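import Pool.Agent.J6H57.VT.Contain

/-!
# There are at least as many leading exponents as monomials
-/

set_option autoImplicit false

namespace Pool.Agent.J6H57.VT

open Polynomial Pool.Agent.TH176.Nag Pool.Agent.TH880.NB

variable {F : Type} [Field F]

theorem GG_smul (j m D : ℕ) (c : F) (P : F[X][X]) :
    GG j m D (C (C c) * P) = C (C c) * GG j m D P := by
  unfold GG
  rw [Finset.mul_sum]
  refine Finset.sum_congr rfl fun b _ => ?_
  rw [coeff_C_mul, mul_assoc (C c), C_mul, mul_assoc]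

/-- the polynomial with given coefficients -/
noncomputable def PP (T : Finset (ℤ × ℤ)) (f : T → F) : F[X][X] :=
  ∑ t : T, monomial ((t : ℤ × ℤ).2.toNat) (monomial ((t : ℤ × ℤ).1.toNat) (f t))

theorem PP_add (T : Finset (ℤ × ℤ)) (f g : T → F) : PP T (f + g) = PP T f + PP T g := by
  unfold PP
  rw [← Finset.sum_add_distrib]
  refine Finset.sum_congr rfl fun t _ => ?_
  rw [Pi.add_apply, map_add, map_add]

theorem PP_smul (T : Finset (ℤ × ℤ)) (c : F) (f : T → F) :
    PP T (c • f) = C (C c) * PP T f := by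
  unfold PP
  rw [Finset.mul_sum]
  refine Finset.sum_congr rfl fun t _ => ?_
  rw [C_mul_monomial, C_mul_monomial, Pi.smul_apply, smul_eq_mul]

theorem PP_coeff (T : Finset (ℤ × ℤ)) (f : T → F) (b a : ℕ) :
    ((PP T f).coeff b).coeff a =
      ∑ t : T, if (t : ℤ × ℤ).2.toNat = b ∧ (t : ℤ × ℤ).1.toNat = a then f t else 0 := by
  unfold PP
  rw [finset_sum_coeff, finset_sum_coeff]
  refine Finset.sum_congr rfl fun t _ => ?_
  rw [coeff_monomial]
  by_cases h : (t : ℤ × ℤ).2.toNat = b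
  · rw [if_pos h, coeff_monomial]
    simp [h]
  · rw [if_neg h, coeff_zero, if_neg (fun h2 => h h2.1)]

theorem dim : DimT := by
  intro K hr F _ B hfin
  classical
  by_cases hR : (Reg 0 B K.μ K.ν).Finite
  swap
  · rw [Set.Infinite.ncard hR]
    exact Nat.zero_le _
  have hS := K.S_pos
  have hm := K.m_pos
  have hSdef : K.S = K.μ + K.ν := rfl
  obtain ⟨T, hT⟩ : ∃ T : Finset (ℤ × ℤ), T = hR.toFinset := ⟨_, rfl⟩
  obtain ⟨L, hL⟩ : ∃ L : Finset (ℤ × ℤ), L = hfin.toFinset := ⟨_, rfl⟩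
  have hTm : ∀ t ∈ T, 0 ≤ t.2 ∧ K.μ * t.2 ≤ t.1 ∧ (t.1 : ℝ) ≤ B - K.ν * t.2 := by
    intro t ht
    rw [hT, Set.Finite.mem_toFinset] at ht
    obtain ⟨h1, h2, h3⟩ := ht
    exact ⟨h1, by linarith, h3⟩
  have hT1 : ∀ t ∈ T, 0 ≤ t.1 := by
    intro t ht
    obtain ⟨h1, h2, h3⟩ := hTm t ht
    have h4 : (0 : ℝ) ≤ t.2 := by exact_mod_cast h1
    have h5 : (0 : ℝ) ≤ t.1 := (mul_nonneg K.hμ h4).trans h2
    exact_mod_cast h5
  obtain ⟨D, hD⟩ : ∃ D : ℕ, D = ⌈B / K.S⌉₊ := ⟨_, rfl⟩
  have hTD : ∀ t ∈ T, t.2.toNat ≤ D := by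
    intro t ht
    obtain ⟨h1, h2, h3⟩ := hTm t ht
    have h4 : (t.2 : ℝ) ≤ B / K.S := by
      rw [le_div_iff₀ hS, hSdef]
      linarith
    have h5 : (t.2 : ℝ) ≤ D := by
      rw [hD]
      exact h4.trans (Nat.le_ceil _)
    have h6 : t.2 ≤ D := by exact_mod_cast h5
    omega
  -- the linear map
  let Φ : (T → F) →ₗ[F] (L → F) :=
    { toFun := fun f z => ((GG K.j K.m D (PP T f)).coeff (z : ℤ × ℤ).2.toNat).coeff
        ((z : ℤ × ℤ).1 + K.j * D).toNat
      map_add' := by
        intro f g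
        funext z
        simp only [PP_add, GG_add, coeff_add, Pi.add_apply]
      map_smul' := by
        intro c f
        funext z
        simp only [PP_smul, GG_smul, coeff_C_mul, Pi.smul_apply, smul_eq_mul, RingHom.id_apply] }
  have hΦ : Function.Injective Φ := by
    rw [← LinearMap.ker_eq_bot, LinearMap.ker_eq_bot']
    intro f hf
    have hPd : (PP T f).natDegree ≤ D := by
      unfold PP
      refine natDegree_sum_le_of_forall_le _ _ fun t _ => ?_
      exact (natDegree_monomial_le _).trans (hTD t t.2)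
    have hPT : InT K.μ K.ν B (PP T f) := by
      intro b a hba
      rw [PP_coeff] at hba
      obtain ⟨t, -, ht⟩ := Finset.exists_ne_zero_of_sum_ne_zero hba
      split_ifs at ht with h
      · obtain ⟨h1, h2⟩ := h
        obtain ⟨h3, h4, h5⟩ := hTm t t.2
        have h6 := hT1 t t.2
        have e1 : ((t : ℤ × ℤ).2 : ℝ) = b := by
          have : (t : ℤ × ℤ).2 = b := by omega
          exact_mod_cast this
        have e2 : ((t : ℤ × ℤ).1 : ℝ) = a := by
          have : (t : ℤ × ℤ).1 = a := by omega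
          exact_mod_cast this
        rw [e1, e2] at h4
        rw [e1, e2] at h5
        exact ⟨h4, h5⟩
      · exact absurd rfl ht
    have hP0 : PP T f = 0 := by
      by_contra hne
      obtain ⟨a, β, hl⟩ := exists_lead hr (GG_ne_zero (j := K.j) hm hPd hne)
      have hz : (((β : ℤ) - K.j * D, (a : ℤ)) : ℤ × ℤ) ∈ L := by
        rw [hL, Set.Finite.mem_toFinset]
        exact ⟨PP T f, D, a, β, hPT, hPd, hl, rfl⟩
      have h1 := congrFun hf ⟨_, hz⟩
      apply hl.1
      have h2 : ((GG K.j K.m D (PP T f)).coeff ((a : ℤ)).toNat).coeff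
          ((β : ℤ) - K.j * D + K.j * D).toNat = 0 := h1
      rw [Int.toNat_natCast, sub_add_cancel, Int.toNat_natCast] at h2
      exact h2
    funext t
    have h1 := PP_coeff T f (t : ℤ × ℤ).2.toNat (t : ℤ × ℤ).1.toNat
    rw [hP0, coeff_zero, coeff_zero, Finset.sum_eq_single t] at h1
    · rw [if_pos ⟨rfl, rfl⟩] at h1
      exact h1.symm
    · intro t' _ hne
      rw [if_neg]
      rintro ⟨h2, h3⟩
      apply hne
      have h4 := hT1 t t.2
      have h5 := hT1 t' t'.2
      have h6 := (hTm t t.2).1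
      have h7 := (hTm t' t'.2).1
      apply Subtype.ext
      ext
      · omega
      · omega
    · intro h
      exact absurd (Finset.mem_univ _) h
  have h1 := card_le_of_injective F Φ hΦ
  rw [Fintype.card_coe, Fintype.card_coe, hT, hL] at h1
  rw [Set.ncard_eq_toFinset_card _ hR, Set.ncard_eq_toFinset_card _ hfin]
  exact h1

end Pool.Agent.J6H57.VT
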