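import Mathlib

/-!
# The inequalities of the quadrilateral
-/

set_option autoImplicit false

namespace Pool.Agent.J6H57.VT

theorem arith_Q {p q S Z m a b y H r : ℝ} (hp : 0 < p) (hq : 0 ≤ q) (hS : 0 < S)
    (hm : m = p + q + S) (hZ : m ^ 2 < Z) (hr : r * S = Z - p * (p + q)) (ha : 0 ≤ a)
    (i1 : p * (r * a + b) ≤ (Z - p * q) * y) (i2 : r * a + b ≤ m * H - q * y)
    (i3 : p * y ≤ b) :
    0 ≤ (S * b - p * (p + q) * a) + p * q * a ∧
    m ^ 2 * (Z - p * q) * a + Z * (S * b - p * (p + q) * a) ≤ (S * H) * (m * (Z - p * q)) ∧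
    m ^ 2 * (p * q) * a - (Z - m ^ 2) * (S * b - p * (p + q) * a) ≤ (S * H) * (m * (p * q)) := by
  have hpq : 0 ≤ p * q := mul_nonneg hp.le hq
  have hm0 : 0 < m := by rw [hm]; linarith
  have h1 : p * (p + q) < Z := by
    have h2 : p * (p + q) ≤ m ^ 2 := by
      rw [hm]; nlinarith [mul_pos hp hS, mul_nonneg hq hS.le, mul_nonneg hp.le hq]
    linarith
  have hr0 : 0 < r := by
    have h2 : 0 < r * S := by rw [hr]; linarith
    exact (mul_pos_iff_of_pos_right hS).1 h2
  have hZpq : 0 < Z - p * q := by nlinarith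
  have hZ0 : 0 < Z := by linarith
  have hZm : 0 < Z - m ^ 2 := by linarith
  refine ⟨?_, ?_, ?_⟩
  · have h2 : r * (p * a) ≤ r * (S * y) := by
      have e : r * (S * y) = (Z - p * q) * y - p * (p * y) := by
        linear_combination y * hr
      rw [e]
      have h3 : p * (p * y) ≤ p * b := mul_le_mul_of_nonneg_left i3 hp.le
      linarith
    have h3 : p * a ≤ S * y := le_of_mul_le_mul_left h2 hr0
    have h4 : p * (p * a) ≤ p * (S * y) := mul_le_mul_of_nonneg_left h3 hp.le
    have h5 : S * (p * y) ≤ S * b := mul_le_mul_of_nonneg_left i3 hS.le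
    linarith
  · have h2 : (Z - p * q) * (r * a + b) ≤ (Z - p * q) * (m * H - q * y) :=
      mul_le_mul_of_nonneg_left i2 hZpq.le
    have h3 : q * (p * (r * a + b)) ≤ q * ((Z - p * q) * y) := mul_le_mul_of_nonneg_left i1 hq
    have h4 : Z * (r * a + b) ≤ (Z - p * q) * (m * H) := by linarith
    have h5 : S * (Z * (r * a + b)) ≤ S * ((Z - p * q) * (m * H)) :=
      mul_le_mul_of_nonneg_left h4 hS.le
    have h6 : m ^ 2 * (Z - p * q) ≤ Z * Z := by
      apply mul_le_mul hZ.le (by linarith) hZpq.le hZ0.le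
    have h7 : m ^ 2 * (Z - p * q) * a ≤ Z * Z * a := mul_le_mul_of_nonneg_right h6 ha
    have e : S * (Z * (r * a + b)) = Z * Z * a + Z * (S * b - p * (p + q) * a) := by
      linear_combination (Z * a) * hr
    linarith
  · obtain ⟨E, hE⟩ : ∃ E : ℝ, E = q * m ^ 2 + (Z - m ^ 2) * (p + q) := ⟨_, rfl⟩
    have hE0 : 0 ≤ E := by rw [hE]; positivity
    have hEq : 0 ≤ E - q * (r * S) := by
      have e : E - q * (r * S) = (Z - m ^ 2) * p + p * q * (p + q) := by
        rw [hE, hr]; ring
      rw [e]; positivity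
    have k1 : (E - q * (r * S)) * (p * (r * a + b) - (Z - p * q) * y) ≤ 0 :=
      mul_nonpos_of_nonneg_of_nonpos hEq (by linarith)
    have k2 : (S * (p * q) * r) * (r * a + b - (m * H - q * y)) ≤ 0 :=
      mul_nonpos_of_nonneg_of_nonpos (by positivity) (by linarith)
    have k3 : (S * (Z - m ^ 2) * r + p * E) * (p * y - b) ≤ 0 :=
      mul_nonpos_of_nonneg_of_nonpos (by positivity) (by linarith)
    have key : r * (m ^ 2 * (p * q) * a - (Z - m ^ 2) * (S * b - p * (p + q) * a) -
        (S * H) * (m * (p * q))) =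
        (E - q * (r * S)) * (p * (r * a + b) - (Z - p * q) * y) +
        (S * (p * q) * r) * (r * a + b - (m * H - q * y)) +
        (S * (Z - m ^ 2) * r + p * E) * (p * y - b) := by
      rw [hE]
      linear_combination (-((q * m ^ 2 + (Z - m ^ 2) * (p + q)) * y)) * hr
    have k4 : r * (m ^ 2 * (p * q) * a - (Z - m ^ 2) * (S * b - p * (p + q) * a) -
        (S * H) * (m * (p * q))) ≤ 0 := by rw [key]; linarith
    have k5 : m ^ 2 * (p * q) * a - (Z - m ^ 2) * (S * b - p * (p + q) * a) -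
        (S * H) * (m * (p * q)) ≤ 0 := by
      by_contra hcon
      push Not at hcon
      have := mul_pos hr0 hcon
      linarith
    linarith

end Pool.Agent.J6H57.VT
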