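import Pool.Agent.J6H57.VT.Divi

/-!
# All leading exponents are in the quadrilateral, and they add up
-/

set_option autoImplicit false

namespace Pool.Agent.J6H57.VT

open Polynomial

variable {F : Type} [Field F]

theorem GG_Sc (j m : ℕ) : GG j m 1 (Sc F j m) = C (1 + X ^ m) * X := by
  have e1 : Sc F j m = monomial 1 (X ^ j) + monomial 0 (-(1 + X ^ m)) := by
    unfold Sc
    rw [monomial_zero_left, C_neg, ← sub_eq_add_neg, C_mul_X_eq_monomial]
  rw [e1, GG_add, GG_monomial (le_refl 1), GG_monomial (Nat.zero_le 1)]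
  simp only [pow_one, Nat.sub_self, pow_zero, mul_one, Nat.sub_zero, C_mul, C_neg]
  ring

theorem lead_Sc {r : ℝ} {j m : ℕ} (hm : 0 < m) : IsLead r (GG j m 1 (Sc F j m)) 1 0 := by
  rw [GG_Sc]
  constructor
  · rw [coeff_mul_X, coeff_C_zero, A_coeff_zero hm]
    exact one_ne_zero
  · intro a β h
    rcases Nat.eq_zero_or_pos a with ha | ha
    · rw [ha, coeff_mul_X_zero, coeff_zero] at h
      exact absurd rfl h
    · obtain ⟨a', rfl⟩ := Nat.exists_eq_succ_of_ne_zero ha.ne'
      rw [Nat.succ_eq_add_one, coeff_mul_X, coeff_C] at h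
      split_ifs at h with h1
      · subst h1
        rcases Nat.eq_zero_or_pos β with hβ | hβ
        · exact Or.inl ⟨rfl, hβ⟩
        · right
          have : (0 : ℝ) < β := by exact_mod_cast hβ
          push_cast
          linarith
      · exact absurd (coeff_zero _) h

theorem lead_tt {r : ℝ} {j : ℕ} (hj : (j : ℝ) < r) :
    IsLead r (C (X ^ j) - X : F[X][X]) 0 j := by
  constructor
  · rw [coeff_sub, coeff_C_zero, coeff_X_zero, sub_zero, coeff_X_pow, if_pos rfl]
    exact one_ne_zero
  · intro a β h
    rw [coeff_sub, coeff_C, coeff_X] at h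
    split_ifs at h with h1 h2 h2
    · omega
    · rw [sub_zero, coeff_X_pow] at h
      split_ifs at h with h3
      · exact Or.inl ⟨h1, h3⟩
      · exact absurd rfl h
    · rw [zero_sub, coeff_neg, coeff_one] at h
      split_ifs at h with h3
      · right
        rw [← h2, h3]
        push_cast
        linarith
      · simp at h
    · simp at h

theorem InT.mul {μ ν B B' : ℝ} {P P' : F[X][X]} (h : InT μ ν B P) (h' : InT μ ν B' P') :
    InT μ ν (B + B') (P * P') := by
  intro b a hba
  obtain ⟨x, y, x', y', h1, h2, rfl, rfl⟩ := exists_of_coeff_mul2 hba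
  have h3 := h x y h1
  have h4 := h' x' y' h2
  push_cast
  constructor
  · linarith
  · linarith

theorem contain_aux (K : Par) (hr : Irrational K.r) (n : ℕ) : ∀ (P : F[X][X]) (B : ℝ), P ≠ 0 →
    P.natDegree ≤ n → InT K.μ K.ν B P → ∀ a β : ℕ,
    IsLead K.r (GG K.j K.m P.natDegree P) a β →
    K.Q B a ((β : ℝ) - K.j * P.natDegree + (K.μ - K.J) * a + K.p * B / K.S) := by
  induction n with
  | zero =>
    intro P B hP hn hT a β hl
    refine contain_nd K hP hT ?_ hl
    intro h0
    have hn0 : P.natDegree = 0 := by omega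
    rw [eval_zero_GG, hn0] at h0
    simp only [zero_add, Finset.range_one, Finset.sum_singleton, pow_zero, mul_one,
      Nat.sub_self] at h0
    apply hP
    rw [eq_C_of_natDegree_le_zero hn, h0, C_0]
  | succ n ih =>
    intro P B hP hn hT a β hl
    by_cases h0 : (GG K.j K.m P.natDegree P).eval 0 = 0
    · have hm := K.m_pos
      rw [eval_zero_GG] at h0
      obtain ⟨P', hP', hT'⟩ := div_aux hm K.hp.le K.hq.le P.natDegree P 0 B le_rfl
        (fun b a hba => by
          have := hT b a hba
          constructor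
          · linarith
          · linarith) h0
      have hP0 : P' ≠ 0 := by
        intro h
        apply hP
        rw [hP', h, mul_zero]
      have hT'' : InT K.μ K.ν (B - K.m) P' := by
        intro b a hba
        have := hT' b a hba
        constructor
        · linarith
        · linarith
      have hScd : (Sc F K.j K.m).natDegree = 1 := by
        unfold Sc
        rw [natDegree_sub_C]
        exact natDegree_C_mul_X _ (pow_ne_zero _ X_ne_zero)
      have hSc0 : Sc F K.j K.m ≠ 0 := by
        intro h
        rw [h, natDegree_zero] at hScd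
        exact absurd hScd (by norm_num)
      have hd : P.natDegree = 1 + P'.natDegree := by
        rw [hP', natDegree_mul hSc0 hP0, hScd]
      obtain ⟨a', β', hl'⟩ := exists_lead hr
        (GG_ne_zero (j := K.j) hm (le_refl P'.natDegree) hP0)
      have h1 := (lead_Sc (r := K.r) (j := K.j) (F := F) hm).mul hl'
      have e1 : GG K.j K.m P.natDegree P =
          GG K.j K.m 1 (Sc F K.j K.m) * GG K.j K.m P'.natDegree P' := by
        rw [hd]
        conv_lhs => rw [hP']
        exact GG_mul hScd.le le_rfl
      rw [e1] at hl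
      obtain ⟨h2, h3⟩ := hl.unique h1
      have h4 := ih P' (B - K.m) hP0 (by omega) hT'' a' β' hl'
      obtain ⟨k1, k2, k3, k4⟩ := h4
      have hS := K.S_pos
      have hq := K.q_pos
      have hp := K.p_pos
      have hmq := K.m_eq
      have hJ := K.J_eq
      have hZ := K.hZ
      have ec : (β : ℝ) - K.j * P.natDegree + (K.μ - K.J) * a + K.p * B / K.S =
          (β' : ℝ) - K.j * P'.natDegree + (K.μ - K.J) * a' + K.p * (B - K.m) / K.S := by
        rw [h2, h3, hd]
        push_cast
        have hpdef : K.p = K.j - K.μ := rfl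
        have e2 : K.p * (B - K.m) / K.S = K.p * B / K.S - K.p * K.m / K.S := by ring
        have e3 : K.p * K.m / K.S = K.J + K.p := by
          rw [div_eq_iff hS.ne', hmq]
          linear_combination -hJ
        rw [e2, e3]
        linear_combination hpdef
      rw [ec]
      obtain ⟨c, hc⟩ : ∃ c : ℝ, c = (β' : ℝ) - K.j * P'.natDegree + (K.μ - K.J) * a' +
        K.p * (B - K.m) / K.S := ⟨_, rfl⟩
      rw [← hc] at k2 k3 k4 ⊢
      have ea : (a : ℝ) = 1 + a' := by rw [h2]; push_cast; ring
      rw [ea]
      have hpq : 0 < K.p * K.q := mul_pos hp hq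
      refine ⟨by linarith, ?_, ?_, ?_⟩
      · linarith
      · nlinarith
      · nlinarith
    · exact contain_nd K hP hT h0 hl

theorem contain : ContainT := by
  intro K hr F _ B z hz
  obtain ⟨P, D, a, β, hT, hD, hl, rfl⟩ := hz
  have hm := K.m_pos
  have hP : P ≠ 0 := by
    intro h
    apply hl.1
    rw [h, GG_zero, coeff_zero, coeff_zero]
  obtain ⟨e, rfl⟩ := Nat.exists_eq_add_of_le hD
  obtain ⟨a', β', hl'⟩ := exists_lead hr (GG_ne_zero (j := K.j) hm (le_refl P.natDegree) hP)
  have h1 := hl'.mul ((lead_tt (F := F) K.j_lt).pow e)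
  rw [GG_shift le_rfl] at hl
  obtain ⟨h2, h3⟩ := hl.unique h1
  have h4 := contain_aux K hr P.natDegree P B hP le_rfl hT a' β' hl'
  show K.Q B _ _
  have ea : (((a : ℤ) : ℝ)) = a' := by rw [h2]; push_cast; ring
  have ec : ((((β : ℤ) - K.j * ((P.natDegree + e : ℕ) : ℤ) : ℤ) : ℝ)) =
      (β' : ℝ) - K.j * P.natDegree := by
    rw [h3]; push_cast; ring
  rw [ea, ec]
  exact h4

theorem add : AddT := by
  intro K hr F _ B B' z z' hz hz'
  obtain ⟨P, D, a, β, hT, hD, hl, rfl⟩ := hz
  obtain ⟨P', D', a', β', hT', hD', hl', rfl⟩ := hz'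
  refine ⟨P * P', D + D', a + a', β + β', hT.mul hT', ?_, ?_, ?_⟩
  · exact natDegree_mul_le.trans (Nat.add_le_add hD hD')
  · rw [GG_mul hD hD']
    exact hl.mul hl'
  · ext
    · simp only [Prod.fst_add]
      push_cast
      ring
    · simp only [Prod.snd_add]
      push_cast
      ring

end Pool.Agent.J6H57.VT
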