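import Pool.Agent.TH880.NB.Cls

/-!
# The vertex move: definitions

Let `T` be the triangle with slopes `μ, ν ≥ 0`, `S = μ + ν`, and let `j, m` be integers with
`p = j - μ > 0` and `q = m - j - ν > 0`.  The polynomials in `x, Y` with support in the multiples
of `T` are considered at the place `Y = A / (x ^ j - u)`, `A = 1 + x ^ m`, where `x` has weight `1`
and `u` has weight `r`.  Their leading exponents fill a quadrilateral `Q`.
-/

set_option autoImplicit false

namespace Pool.Agent.J6H57.VT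

open Pool.Agent.TH176.Nag Pool.Agent.TH880.NB Polynomial

/-- the parameters of a vertex move -/
structure Par where
  μ : ℝ
  ν : ℝ
  j : ℕ
  m : ℕ
  Z : ℝ
  hμ : 0 ≤ μ
  hν : 0 ≤ ν
  hS : 0 < μ + ν
  hp : μ < j
  hq : j + ν < m
  hZ : (m : ℝ) ^ 2 < Z

namespace Par

variable (K : Par)

noncomputable def S : ℝ := K.μ + K.ν
noncomputable def p : ℝ := K.j - K.μ
noncomputable def q : ℝ := K.m - K.j - K.ν
noncomputable def J : ℝ := K.p * (K.p + K.q) / K.S
/-- the weight of `u` -/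
noncomputable def r : ℝ := K.μ + (K.Z - K.p * (K.p + K.q)) / K.S

/-- the quadrilateral -/
def Q (B a c : ℝ) : Prop :=
  0 ≤ a ∧ 0 ≤ K.S * c + K.p * K.q * a ∧
    K.m ^ 2 * (K.Z - K.p * K.q) * a + K.S * K.Z * c ≤ B * (K.m * (K.Z - K.p * K.q)) ∧
    K.m ^ 2 * (K.p * K.q) * a - K.S * (K.Z - K.m ^ 2) * c ≤ B * (K.m * (K.p * K.q))

/-- the quadrilateral as a set of exponents `(n, a)` of `x ^ n * u ^ a`, with an offset -/
def QQ (B t : ℝ) : Set (ℤ × ℤ) :=
  {z | K.Q B z.2 (z.1 + (K.μ - K.J) * z.2 + t)}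

end Par

section poly
variable {F : Type} [Field F]

/-- the polynomial `∑ p_b A ^ b (x ^ j - u) ^ (D - b)` in `u` with coefficients in `F[x]`, for
`P = ∑ p_b Y ^ b` -/
noncomputable def GG (j m D : ℕ) (P : F[X][X]) : F[X][X] :=
  ∑ b ∈ Finset.range (D + 1), C (P.coeff b * (1 + X ^ m) ^ b) * (C (X ^ j) - X) ^ (D - b)

/-- the support is in the triangle with base `[0, B]` and slopes `μ, ν` -/
def InT (μ ν B : ℝ) (P : F[X][X]) : Prop :=
  ∀ b a : ℕ, (P.coeff b).coeff a ≠ 0 → μ * b ≤ a ∧ a ≤ B - ν * b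

/-- `u ^ a * x ^ β` is the term of `G` of smallest weight `r a + β`, and the only one -/
def IsLead (r : ℝ) (G : F[X][X]) (a β : ℕ) : Prop :=
  (G.coeff a).coeff β ≠ 0 ∧
    ∀ a' β' : ℕ, (G.coeff a').coeff β' ≠ 0 → (a' = a ∧ β' = β) ∨ r * a + β < r * a' + β'

/-- `z = (n, a)` is the leading exponent of a polynomial with support in the triangle of base
`B` -/
def Lds (F : Type) [Field F] (K : Par) (B : ℝ) : Set (ℤ × ℤ) :=
  {z | ∃ (P : F[X][X]) (D a β : ℕ), InT K.μ K.ν B P ∧ P.natDegree ≤ D ∧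
    IsLead K.r (GG K.j K.m D P) a β ∧ z = ((β : ℤ) - K.j * D, (a : ℤ))}

end poly

end Pool.Agent.J6H57.VT
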