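import Pool.Agent.J6H57.VT.Nd

/-!
# Polynomials which vanish along the curve `u = 0` are divisible by `x ^ j * Y - A`
-/

set_option autoImplicit false

namespace Pool.Agent.J6H57.VT

open Polynomial

variable {F : Type} [Field F]

theorem A_coprime {m : ℕ} (hm : 0 < m) (n : ℕ) : IsCoprime (1 + X ^ m : F[X]) (X ^ n) := by
  refine IsCoprime.pow_right ?_
  obtain ⟨k, rfl⟩ := Nat.exists_eq_succ_of_ne_zero hm.ne'
  exact ⟨1, -X ^ k, by rw [pow_succ]; ring⟩

theorem A_natDegree {m : ℕ} (hm : 0 < m) : (1 + X ^ m : F[X]).natDegree = m := by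
  rw [add_comm, ← C_1]
  exact natDegree_X_pow_add_C

/-- exponents of the quotient by `A` -/
theorem quot_A {m : ℕ} (hm : 0 < m) {p h : F[X]} (hp : p = (1 + X ^ m) * h) {α β : ℝ}
    (hT : ∀ a : ℕ, p.coeff a ≠ 0 → α ≤ a ∧ a ≤ β) :
    ∀ a : ℕ, h.coeff a ≠ 0 → α ≤ a ∧ a ≤ β - m := by
  intro a ha
  have hh : h ≠ 0 := fun h0 => ha (by rw [h0, coeff_zero])
  have hA := A_ne (F := F) hm
  have hp0 : p ≠ 0 := by rw [hp]; exact mul_ne_zero hA hh
  constructor
  · have h1 : p.natTrailingDegree = h.natTrailingDegree := by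
      rw [hp, natTrailingDegree_mul hA hh, natTrailingDegree_eq_zero.2
        (Or.inr (by rw [A_coeff_zero hm]; exact one_ne_zero)), zero_add]
    have h2 := (hT _ (trailingCoeff_nonzero_iff_nonzero.2 hp0)).1
    have h3 : h.natTrailingDegree ≤ a := natTrailingDegree_le_of_ne_zero ha
    rw [h1] at h2
    have h4 : (h.natTrailingDegree : ℝ) ≤ a := by exact_mod_cast h3
    linarith
  · have h1 : p.natDegree = m + h.natDegree := by
      rw [hp, natDegree_mul hA hh, A_natDegree hm]
    have h2 := (hT p.natDegree (by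
      rw [coeff_natDegree]; exact leadingCoeff_ne_zero.2 hp0)).2
    have h3 : a ≤ h.natDegree := le_natDegree_of_ne_zero ha
    rw [h1] at h2
    push_cast at h2
    have h4 : (a : ℝ) ≤ h.natDegree := by exact_mod_cast h3
    linarith

/-- the curve `x ^ j * Y - A` -/
noncomputable def Sc (F : Type) [Field F] (j m : ℕ) : F[X][X] := C (X ^ j) * X - C (1 + X ^ m)

theorem div_aux {μ ν : ℝ} {j m : ℕ} (hm : 0 < m) (hj : μ ≤ j) (hjm : j + ν ≤ m) (D : ℕ) :
    ∀ (P : F[X][X]) (α β : ℝ), P.natDegree ≤ D →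
      (∀ b a : ℕ, (P.coeff b).coeff a ≠ 0 → α + μ * b ≤ a ∧ a ≤ β - ν * b) →
      ∑ b ∈ Finset.range (D + 1), P.coeff b * (1 + X ^ m) ^ b * (X ^ j) ^ (D - b) = 0 →
      ∃ P' : F[X][X], P = Sc F j m * P' ∧
        ∀ b a : ℕ, (P'.coeff b).coeff a ≠ 0 → α + μ * b ≤ a ∧ a ≤ β - m - ν * b := by
  induction D with
  | zero =>
    intro P α β hP hT hsum
    refine ⟨0, ?_, fun b a h => by simp at h⟩
    simp only [zero_add, Finset.range_one, Finset.sum_singleton, pow_zero, mul_one,
      Nat.sub_self] at hsum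
    rw [mul_zero, eq_C_of_natDegree_le_zero hP, hsum, C_0]
  | succ D ih =>
    intro P α β hP hT hsum
    rw [Finset.sum_range_succ'] at hsum
    have e1 : ∑ b ∈ Finset.range (D + 1), P.coeff (b + 1) * (1 + X ^ m) ^ (b + 1) *
        (X ^ j) ^ (D + 1 - (b + 1)) = (1 + X ^ m) *
        ∑ b ∈ Finset.range (D + 1), P.coeff (b + 1) * (1 + X ^ m) ^ b * (X ^ j) ^ (D - b) := by
      rw [Finset.mul_sum]
      refine Finset.sum_congr rfl fun b _ => ?_
      rw [Nat.add_sub_add_right, pow_succ (1 + X ^ m : F[X]) b]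
      ring
    rw [e1, pow_zero, mul_one, Nat.sub_zero] at hsum
    obtain ⟨R, hR⟩ : ∃ R : F[X], R = ∑ b ∈ Finset.range (D + 1),
      P.coeff (b + 1) * (1 + X ^ m) ^ b * (X ^ j) ^ (D - b) := ⟨_, rfl⟩
    rw [← hR] at hsum
    have hdvd : (1 + X ^ m : F[X]) ∣ P.coeff 0 := by
      have h1 : (1 + X ^ m : F[X]) ∣ P.coeff 0 * (X ^ j) ^ (D + 1) := by
        refine ⟨-R, ?_⟩
        linear_combination hsum
      rw [← pow_mul] at h1
      exact (A_coprime hm _).dvd_of_dvd_mul_right h1
    obtain ⟨h', hh'⟩ := hdvd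
    obtain ⟨h, hh⟩ : ∃ h : F[X], h = -h' := ⟨_, rfl⟩
    have hp0 : P.coeff 0 = -((1 + X ^ m) * h) := by rw [hh, hh']; ring
    have hhT : ∀ a : ℕ, h.coeff a ≠ 0 → α ≤ a ∧ a ≤ β - m := by
      refine quot_A hm (p := -P.coeff 0) (by rw [hp0, neg_neg]) ?_
      intro a ha
      rw [coeff_neg, neg_ne_zero] at ha
      have := hT 0 a ha
      simpa using this
    obtain ⟨P1, hP1⟩ : ∃ P1 : F[X][X], P1 = divX P - C (X ^ j * h) := ⟨_, rfl⟩
    have hP1c : ∀ b, P1.coeff b = P.coeff (b + 1) - if b = 0 then X ^ j * h else 0 := by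
      intro b
      rw [hP1, coeff_sub, coeff_divX, coeff_C]
    have hP1d : P1.natDegree ≤ D := by
      rw [hP1]
      refine (natDegree_sub_le _ _).trans (max_le ?_ ?_)
      · rw [natDegree_divX_eq_natDegree_tsub_one]
        omega
      · rw [natDegree_C]; exact Nat.zero_le D
    have hP1s : ∑ b ∈ Finset.range (D + 1), P1.coeff b * (1 + X ^ m) ^ b * (X ^ j) ^ (D - b)
        = 0 := by
      have e2 : ∑ b ∈ Finset.range (D + 1), P1.coeff b * (1 + X ^ m) ^ b * (X ^ j) ^ (D - b) =
          R - X ^ j * h * (X ^ j) ^ D := by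
        rw [hR, eq_sub_iff_add_eq, Finset.sum_range_succ', Finset.sum_range_succ' (fun b =>
          P.coeff (b + 1) * (1 + X ^ m) ^ b * (X ^ j) ^ (D - b))]
        rw [hP1c 0, if_pos rfl]
        have e3 : ∑ b ∈ Finset.range D, P1.coeff (b + 1) * (1 + X ^ m) ^ (b + 1) *
            (X ^ j) ^ (D - (b + 1)) = ∑ b ∈ Finset.range D, P.coeff (b + 1 + 1) *
            (1 + X ^ m) ^ (b + 1) * (X ^ j) ^ (D - (b + 1)) := by
          refine Finset.sum_congr rfl fun b _ => ?_
          rw [hP1c, if_neg (Nat.succ_ne_zero b), sub_zero]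
        rw [e3]
        simp only [pow_zero, mul_one, Nat.sub_zero, zero_add]
        ring
      rw [e2]
      have hA := A_ne (F := F) hm
      apply mul_left_cancel₀ hA
      rw [mul_zero, mul_sub]
      rw [hp0] at hsum
      rw [pow_succ] at hsum
      linear_combination hsum
    have hP1T : ∀ b a : ℕ, (P1.coeff b).coeff a ≠ 0 →
        (α + μ) + μ * b ≤ a ∧ a ≤ (β - ν) - ν * b := by
      intro b a hba
      rw [hP1c, coeff_sub] at hba
      by_cases hc : (P.coeff (b + 1)).coeff a = 0
      · rw [hc, zero_sub, neg_ne_zero] at hba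
        split_ifs at hba with hb
        · rw [coeff_X_pow_mul'] at hba
          split_ifs at hba with hja
          · have h1 := hhT _ hba
            rw [Nat.cast_sub hja] at h1
            rw [hb]
            push_cast
            constructor
            · linarith
            · linarith
          · exact absurd rfl hba
        · exact absurd (coeff_zero _) hba
      · have h1 := hT _ _ hc
        push_cast at h1
        constructor
        · linarith
        · linarith
    obtain ⟨P', hP', hP'T⟩ := ih P1 (α + μ) (β - ν) hP1d hP1T hP1s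
    refine ⟨C h + X * P', ?_, ?_⟩
    · have e2 : P = X * divX P + C (P.coeff 0) := (X_mul_divX_add P).symm
      have e3 : divX P = P1 + C (X ^ j * h) := by rw [hP1]; ring
      conv_lhs => rw [e2]
      rw [e3, hP', hp0]
      unfold Sc
      simp only [C_mul, C_neg]
      ring
    · intro b a hba
      rw [coeff_add, coeff_C] at hba
      rcases Nat.eq_zero_or_pos b with hb | hb
      · subst hb
        rw [if_pos rfl, coeff_X_mul_zero, add_zero] at hba
        have h1 := hhT a hba
        push_cast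
        constructor
        · linarith
        · linarith
      · obtain ⟨b', rfl⟩ := Nat.exists_eq_succ_of_ne_zero hb.ne'
        rw [if_neg (Nat.succ_ne_zero b'), zero_add, Nat.succ_eq_add_one, coeff_X_mul] at hba
        have h1 := hP'T b' a hba
        push_cast
        constructor
        · linarith
        · linarith

end Pool.Agent.J6H57.VT
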