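import Pool.Agent.J6H57.VT.Lead

/-!
# The polynomials `GG`
-/

set_option autoImplicit false

namespace Pool.Agent.J6H57.VT

open Polynomial

variable {F : Type} [Field F] {j m : ℕ}

theorem GG_add (D : ℕ) (P P' : F[X][X]) : GG j m D (P + P') = GG j m D P + GG j m D P' := by
  unfold GG
  rw [← Finset.sum_add_distrib]
  refine Finset.sum_congr rfl fun b _ => ?_
  rw [coeff_add, add_mul, C_add, add_mul]

theorem GG_zero (D : ℕ) : GG j m D (0 : F[X][X]) = 0 := by
  unfold GG
  refine Finset.sum_eq_zero fun b _ => ?_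
  rw [coeff_zero, zero_mul, C_0, zero_mul]

theorem GG_sum (D : ℕ) {κ : Type} (s : Finset κ) (P : κ → F[X][X]) :
    GG j m D (∑ k ∈ s, P k) = ∑ k ∈ s, GG j m D (P k) := by
  classical
  induction s using Finset.induction_on with
  | empty => simp [GG_zero]
  | insert a s ha ih => rw [Finset.sum_insert ha, Finset.sum_insert ha, GG_add, ih]

theorem GG_monomial {D b : ℕ} (hb : b ≤ D) (p : F[X]) :
    GG j m D (monomial b p) = C (p * (1 + X ^ m) ^ b) * (C (X ^ j) - X) ^ (D - b) := by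
  unfold GG
  rw [Finset.sum_eq_single b]
  · rw [coeff_monomial_same]
  · intro b' _ hne
    rw [coeff_monomial_of_ne _ hne, zero_mul, C_0, zero_mul]
  · intro h
    exact absurd (Finset.mem_range.2 (by omega)) h

theorem GG_one (D : ℕ) : GG j m D (1 : F[X][X]) = (C (X ^ j) - X) ^ D := by
  have h := GG_monomial (F := F) (j := j) (m := m) (Nat.zero_le D) 1
  rw [monomial_zero_left, C_1] at h
  rw [h]
  simp

theorem GG_mul {D D' : ℕ} {P P' : F[X][X]} (hP : P.natDegree ≤ D) (hP' : P'.natDegree ≤ D') :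
    GG j m (D + D') (P * P') = GG j m D P * GG j m D' P' := by
  have e1 : P = ∑ b ∈ Finset.range (D + 1), monomial b (P.coeff b) :=
    P.as_sum_range' (D + 1) (by omega)
  have e2 : P' = ∑ b ∈ Finset.range (D' + 1), monomial b (P'.coeff b) :=
    P'.as_sum_range' (D' + 1) (by omega)
  have e3 : P * P' = ∑ b ∈ Finset.range (D + 1), ∑ b' ∈ Finset.range (D' + 1),
      monomial (b + b') (P.coeff b * P'.coeff b') := by
    conv_lhs => rw [e1, e2]
    rw [Finset.sum_mul_sum]
    refine Finset.sum_congr rfl fun b _ => Finset.sum_congr rfl fun b' _ => ?_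
    rw [monomial_mul_monomial]
  rw [e3, GG_sum]
  conv_rhs => unfold GG
  rw [Finset.sum_mul_sum]
  refine Finset.sum_congr rfl fun b hb => ?_
  rw [GG_sum]
  refine Finset.sum_congr rfl fun b' hb' => ?_
  rw [Finset.mem_range] at hb hb'
  rw [GG_monomial (by omega)]
  have e4 : D + D' - (b + b') = (D - b) + (D' - b') := by omega
  rw [e4, pow_add, pow_add, C_mul, C_mul, C_mul, C_mul, C_mul]
  ring

theorem GG_shift {D : ℕ} {P : F[X][X]} (hP : P.natDegree ≤ D) (e : ℕ) :
    GG j m (D + e) P = GG j m D P * (C (X ^ j) - X) ^ e := by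
  have h := GG_mul (j := j) (m := m) (D' := e) (P' := (1 : F[X][X])) hP (by simp)
  rw [mul_one, GG_one] at h
  exact h

theorem eval_GG (D : ℕ) (P : F[X][X]) :
    (GG j m D P).eval (X ^ j) = P.coeff D * (1 + X ^ m) ^ D := by
  unfold GG
  rw [eval_finsetSum, Finset.sum_range_succ, Finset.sum_eq_zero, zero_add]
  · simp
  · intro b hb
    rw [Finset.mem_range] at hb
    rw [eval_mul, eval_pow, eval_sub, eval_C, eval_X, eval_C, sub_self, zero_pow (by omega),
      mul_zero]

theorem eval_zero_GG (D : ℕ) (P : F[X][X]) :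
    (GG j m D P).eval 0 =
      ∑ b ∈ Finset.range (D + 1), P.coeff b * (1 + X ^ m) ^ b * (X ^ j) ^ (D - b) := by
  unfold GG
  rw [eval_finsetSum]
  refine Finset.sum_congr rfl fun b _ => ?_
  rw [eval_mul, eval_pow, eval_sub, eval_C, eval_X, eval_C, sub_zero]

theorem A_coeff_zero {m : ℕ} (hm : 0 < m) : (1 + X ^ m : F[X]).coeff 0 = 1 := by
  rw [coeff_add, coeff_one_zero, coeff_X_pow, if_neg (by omega), add_zero]

theorem A_ne {m : ℕ} (hm : 0 < m) : (1 + X ^ m : F[X]) ≠ 0 := by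
  intro h
  have := A_coeff_zero (F := F) hm
  rw [h] at this
  simp at this

theorem tt_ne (j : ℕ) : (C (X ^ j) - X : F[X][X]) ≠ 0 := by
  intro h
  have h1 : (C (X ^ j) - X : F[X][X]).coeff 1 = 0 := by rw [h, coeff_zero]
  rw [coeff_sub, coeff_X_one, coeff_C, if_neg one_ne_zero, zero_sub, neg_eq_zero] at h1
  exact one_ne_zero h1

theorem GG_ne_zero (hm : 0 < m) {D : ℕ} {P : F[X][X]} (hP : P.natDegree ≤ D) (h0 : P ≠ 0) :
    GG j m D P ≠ 0 := by
  obtain ⟨e, rfl⟩ := Nat.exists_eq_add_of_le hP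
  rw [GG_shift le_rfl]
  refine mul_ne_zero ?_ (pow_ne_zero _ (tt_ne j))
  intro h
  have h1 := eval_GG (j := j) (m := m) P.natDegree P
  rw [h, eval_zero] at h1
  have h2 : P.coeff P.natDegree ≠ 0 := by
    rw [coeff_natDegree]
    exact leadingCoeff_ne_zero.2 h0
  exact mul_ne_zero h2 (pow_ne_zero _ (A_ne hm)) h1.symm

/-! ### Weights -/

/-- all exponents have `w ≤ μ a + β` -/
def WL (μ w : ℝ) (G : F[X][X]) : Prop :=
  ∀ a β : ℕ, (G.coeff a).coeff β ≠ 0 → w ≤ μ * a + β

theorem WL.mul {μ w w' : ℝ} {G H : F[X][X]} (h : WL μ w G) (h' : WL μ w' H) :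
    WL μ (w + w') (G * H) := by
  intro n k hnk
  obtain ⟨x, b, x', b', h1, h2, rfl, rfl⟩ := exists_of_coeff_mul2 hnk
  have h3 := h x b h1
  have h4 := h' x' b' h2
  push_cast
  linarith

theorem WL.one {μ : ℝ} : WL μ 0 (1 : F[X][X]) := by
  intro a β h
  rw [coeff_one] at h
  split_ifs at h with h1
  · rw [coeff_one] at h
    split_ifs at h with h2
    · rw [h1, h2]; simp
    · exact absurd rfl h
  · exact absurd (coeff_zero _) h

theorem WL.pow {μ w : ℝ} {G : F[X][X]} (h : WL μ w G) (n : ℕ) : WL μ (n * w) (G ^ n) := by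
  induction n with
  | zero => simpa using WL.one
  | succ n ih =>
    rw [pow_succ]
    have := ih.mul h
    have e : (n : ℝ) * w + w = ((n + 1 : ℕ) : ℝ) * w := by push_cast; ring
    rwa [e] at this

theorem WL.sum {μ w : ℝ} {κ : Type} {s : Finset κ} {G : κ → F[X][X]}
    (h : ∀ k ∈ s, WL μ w (G k)) : WL μ w (∑ k ∈ s, G k) := by
  intro a β hab
  rw [finset_sum_coeff, finset_sum_coeff] at hab
  obtain ⟨k, hk, h1⟩ := Finset.exists_ne_zero_of_sum_ne_zero hab
  exact h k hk a β h1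

theorem WL.C {μ w : ℝ} {p : F[X]} (h : ∀ k : ℕ, p.coeff k ≠ 0 → w ≤ k) :
    WL μ w (C p) := by
  intro a β hab
  rw [coeff_C] at hab
  split_ifs at hab with h1
  · have := h β hab
    rw [h1]; simpa using this
  · exact absurd (coeff_zero _) hab

theorem WL.tt {μ : ℝ} {j : ℕ} (h : μ ≤ j) : WL μ μ (Polynomial.C (X ^ j) - X : F[X][X]) := by
  intro a β hab
  rw [coeff_sub, coeff_C, coeff_X] at hab
  split_ifs at hab with h1 h2 h2
  · omega
  · rw [sub_zero, coeff_X_pow] at hab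
    split_ifs at hab with h3
    · rw [h1, h3]; simpa using h
    · exact absurd rfl hab
  · rw [zero_sub, coeff_neg, coeff_one] at hab
    split_ifs at hab with h3
    · rw [← h2, h3]; simp
    · simp at hab
  · simp at hab

/-- the exponents of a product in one variable -/
theorem exists_of_coeff_mul {p q : F[X]} {n : ℕ} (h : (p * q).coeff n ≠ 0) :
    ∃ a b, p.coeff a ≠ 0 ∧ q.coeff b ≠ 0 ∧ a + b = n := by
  rw [coeff_mul] at h
  obtain ⟨x, hx, h1⟩ := Finset.exists_ne_zero_of_sum_ne_zero h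
  exact ⟨x.1, x.2, left_ne_zero_of_mul h1, right_ne_zero_of_mul h1,
    Finset.HasAntidiagonal.mem_antidiagonal.1 hx⟩

theorem WL.GG {μ ν B : ℝ} {j m D : ℕ} (hj : μ ≤ j) {P : F[X][X]} (hT : InT μ ν B P) :
    WL μ (D * μ) (Pool.Agent.J6H57.VT.GG j m D P) := by
  unfold Pool.Agent.J6H57.VT.GG
  refine WL.sum fun b hb => ?_
  rw [Finset.mem_range] at hb
  have h1 : WL μ (μ * b) (Polynomial.C (P.coeff b * (1 + X ^ m) ^ b) : F[X][X]) := by
    refine WL.C fun k hk => ?_
    obtain ⟨a, c, h2, -, rfl⟩ := exists_of_coeff_mul hk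
    have := (hT b a h2).1
    push_cast
    have : (0 : ℝ) ≤ c := Nat.cast_nonneg c
    linarith
  have h2 := h1.mul ((WL.tt (F := F) hj).pow (D - b))
  have e : μ * b + ((D - b : ℕ) : ℝ) * μ = D * μ := by
    rw [Nat.cast_sub (by omega)]
    ring
  rwa [e] at h2

end Pool.Agent.J6H57.VT
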