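import Pool.Agent.J6H57.VT.Stm2

/-!
# Leading exponents of polynomials in two variables for an irrational weight
-/

set_option autoImplicit false

namespace Pool.Agent.J6H57.VT

open Polynomial

variable {F : Type} [Field F] {r : ℝ}

theorem irr_inj (hr : Irrational r) {a a' β β' : ℕ} (h : r * a + β = r * a' + β') :
    a = a' ∧ β = β' := by
  have h1 : a = a' := by
    by_contra hne
    have h2 : (a : ℝ) - a' ≠ 0 := by
      intro h3
      apply hne
      have : (a : ℝ) = a' := by linarith
      exact_mod_cast this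
    apply hr
    refine ⟨((β' : ℚ) - β) / ((a : ℚ) - a'), ?_⟩
    push_cast
    rw [div_eq_iff h2]
    linarith
  subst h1
  refine ⟨rfl, ?_⟩
  have : (β : ℝ) = β' := by linarith
  exact_mod_cast this

theorem IsLead.le {G : F[X][X]} {a β : ℕ} (h : IsLead r G a β) {a' β' : ℕ}
    (h' : (G.coeff a').coeff β' ≠ 0) : r * a + β ≤ r * a' + β' := by
  rcases h.2 a' β' h' with ⟨h1, h2⟩ | h1
  · rw [h1, h2]
  · exact h1.le

theorem IsLead.unique {G : F[X][X]} {a β a' β' : ℕ} (h : IsLead r G a β)
    (h' : IsLead r G a' β') : a = a' ∧ β = β' := by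
  rcases h.2 a' β' h'.1 with ⟨h1, h2⟩ | h1
  · exact ⟨h1.symm, h2.symm⟩
  · exact absurd (h'.le h.1) (not_le.2 h1)

theorem exists_lead (hr : Irrational r) {G : F[X][X]} (hG : G ≠ 0) :
    ∃ a β : ℕ, IsLead r G a β := by
  classical
  obtain ⟨s, hs⟩ : ∃ s : Finset (ℕ × ℕ), ∀ z, z ∈ s ↔ (G.coeff z.1).coeff z.2 ≠ 0 := by
    refine ⟨G.support.biUnion fun a => (G.coeff a).support.image fun b => (a, b), ?_⟩
    rintro ⟨a, b⟩
    simp only [Finset.mem_biUnion, Finset.mem_image, Polynomial.mem_support_iff, Prod.mk.injEq]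
    constructor
    · rintro ⟨a', -, b', h2, rfl, rfl⟩
      exact h2
    · intro h
      exact ⟨a, fun h0 => h (by rw [h0, coeff_zero]), b, h, rfl, rfl⟩
  have hne : s.Nonempty := by
    by_contra h
    apply hG
    ext a b
    by_contra h2
    exact h ⟨(a, b), (hs _).2 h2⟩
  obtain ⟨z, hz, hmin⟩ := Finset.exists_min_image s (fun z => r * z.1 + z.2) hne
  refine ⟨z.1, z.2, (hs _).1 hz, fun a' β' h' => ?_⟩
  have h1 := hmin (a', β') ((hs _).2 h')
  simp only at h1
  rcases lt_or_eq_of_le h1 with h2 | h2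
  · exact Or.inr h2
  · obtain ⟨h3, h4⟩ := irr_inj hr h2
    exact Or.inl ⟨h3.symm, h4.symm⟩

theorem coeff_mul2 (G H : F[X][X]) (n k : ℕ) : ((G * H).coeff n).coeff k =
    ∑ x ∈ Finset.HasAntidiagonal.antidiagonal n, ∑ y ∈ Finset.HasAntidiagonal.antidiagonal k,
      (G.coeff x.1).coeff y.1 * (H.coeff x.2).coeff y.2 := by
  rw [coeff_mul, finset_sum_coeff]
  exact Finset.sum_congr rfl fun x _ => coeff_mul _ _ _

theorem exists_of_coeff_mul2 {G H : F[X][X]} {n k : ℕ} (h : ((G * H).coeff n).coeff k ≠ 0) :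
    ∃ a β a' β', (G.coeff a).coeff β ≠ 0 ∧ (H.coeff a').coeff β' ≠ 0 ∧ a + a' = n ∧
      β + β' = k := by
  rw [coeff_mul2] at h
  obtain ⟨x, hx, h1⟩ := Finset.exists_ne_zero_of_sum_ne_zero h
  obtain ⟨y, hy, h2⟩ := Finset.exists_ne_zero_of_sum_ne_zero h1
  exact ⟨x.1, y.1, x.2, y.2, left_ne_zero_of_mul h2, right_ne_zero_of_mul h2,
    Finset.HasAntidiagonal.mem_antidiagonal.1 hx, Finset.HasAntidiagonal.mem_antidiagonal.1 hy⟩

theorem IsLead.mul {G H : F[X][X]} {a β a' β' : ℕ} (h : IsLead r G a β)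
    (h' : IsLead r H a' β') : IsLead r (G * H) (a + a') (β + β') := by
  classical
  constructor
  · rw [coeff_mul2, Finset.sum_eq_single (a, a'), Finset.sum_eq_single (β, β')]
    · exact mul_ne_zero h.1 h'.1
    · rintro ⟨b, b'⟩ hb hne
      by_contra h0
      have h1 := h.2 a b (left_ne_zero_of_mul h0)
      have h2 := h'.2 a' b' (right_ne_zero_of_mul h0)
      rw [Finset.HasAntidiagonal.mem_antidiagonal] at hb
      simp only at hb h1 h2
      have hb' : (b : ℝ) + b' = β + β' := by exact_mod_cast hb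
      apply hne
      rcases h1 with ⟨-, h1⟩ | h1
      · have : b' = β' := by omega
        rw [h1, this]
      · rcases h2 with ⟨-, h2⟩ | h2
        · have : b = β := by omega
          rw [h2, this]
        · exfalso; linarith
    · intro h0
      exact (h0 (by simp)).elim
    · rintro ⟨x, x'⟩ hx hne
      apply Finset.sum_eq_zero
      rintro ⟨b, b'⟩ hb
      by_contra h0
      have h1 := h.2 x b (left_ne_zero_of_mul h0)
      have h2 := h'.2 x' b' (right_ne_zero_of_mul h0)
      rw [Finset.HasAntidiagonal.mem_antidiagonal] at hb hx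
      simp only at hb hx h1 h2
      have hb' : (b : ℝ) + b' = β + β' := by exact_mod_cast hb
      have hx' : (x : ℝ) + x' = a + a' := by exact_mod_cast hx
      have hx'' : r * x + r * x' = r * a + r * a' := by rw [← mul_add, hx', mul_add]
      apply hne
      rcases h1 with ⟨h1, -⟩ | h1
      · have : x' = a' := by omega
        rw [h1, this]
      · rcases h2 with ⟨h2, -⟩ | h2
        · have : x = a := by omega
          rw [h2, this]
        · exfalso; linarith
    · intro h0
      exact (h0 (by simp)).elim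
  · intro n k hnk
    obtain ⟨x, b, x', b', h1, h2, rfl, rfl⟩ := exists_of_coeff_mul2 hnk
    have h3 := h.2 x b h1
    have h4 := h'.2 x' b' h2
    push_cast
    rcases h3 with ⟨rfl, rfl⟩ | h3
    · rcases h4 with ⟨rfl, rfl⟩ | h4
      · exact Or.inl ⟨rfl, rfl⟩
      · right; linarith
    · right
      have h5 := h'.le h2
      linarith

theorem IsLead.one : IsLead r (1 : F[X][X]) 0 0 := by
  constructor
  · simp
  · intro a' β' h
    left
    rw [coeff_one] at h
    split_ifs at h with h1
    · rw [coeff_one] at h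
      split_ifs at h with h2
      · exact ⟨h1, h2⟩
      · exact absurd rfl h
    · exact absurd (coeff_zero _) h

theorem IsLead.pow {G : F[X][X]} {a β : ℕ} (h : IsLead r G a β) (n : ℕ) :
    IsLead r (G ^ n) (n * a) (n * β) := by
  induction n with
  | zero => simpa using IsLead.one
  | succ n ih =>
    rw [pow_succ, Nat.succ_mul, Nat.succ_mul]
    exact ih.mul h

end Pool.Agent.J6H57.VT
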