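import Pool.Agent.J6H57.VT.Gs
import Pool.Agent.J6H57.VT.ArithQ

/-!
# The leading exponents of polynomials which do not vanish along the curve `u = 0`
-/

set_option autoImplicit false

namespace Pool.Agent.J6H57.VT

open Polynomial

namespace Par
variable (K : Par)

theorem S_pos : 0 < K.S := K.hS
theorem p_pos : 0 < K.p := by
  have := K.hp
  unfold p; linarith
theorem q_pos : 0 < K.q := by
  have := K.hq
  unfold q; linarith
theorem m_eq : (K.m : ℝ) = K.p + K.q + K.S := by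
  unfold p q S; ring
theorem m_pos : 0 < K.m := by
  have h1 := K.m_eq
  have h2 := K.p_pos
  have h3 := K.q_pos
  have h4 := K.S_pos
  have : (0 : ℝ) < K.m := by linarith
  exact_mod_cast this
theorem r_eq : (K.r - K.μ) * K.S = K.Z - K.p * (K.p + K.q) := by
  have h4 := K.S_pos.ne'
  unfold r
  field_simp
  ring
theorem J_eq : K.S * K.J = K.p * (K.p + K.q) := by
  have h4 := K.S_pos.ne'
  unfold J
  field_simp
theorem p_lt : K.p < K.r - K.μ := by
  have h1 := K.m_eq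
  have h2 := K.p_pos
  have h3 := K.q_pos
  have h4 := K.S_pos
  have h5 := K.r_eq
  have h6 := K.hZ
  have h7 : K.p * K.S < (K.r - K.μ) * K.S := by
    rw [h5]
    have : K.p * K.S + K.p * (K.p + K.q) ≤ K.m ^ 2 := by
      rw [h1]
      nlinarith [mul_pos h2 h4, mul_pos h3 h4, mul_pos h2 h3]
    linarith
  exact lt_of_mul_lt_mul_right h7 h4.le
theorem j_lt : (K.j : ℝ) < K.r := by
  have := K.p_lt
  unfold p at this
  linarith

end Par

variable {F : Type} [Field F]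

theorem contain_nd (K : Par) {B : ℝ} {P : F[X][X]} (hP : P ≠ 0) (hT : InT K.μ K.ν B P)
    (h0 : (GG K.j K.m P.natDegree P).eval 0 ≠ 0) {a β : ℕ}
    (hl : IsLead K.r (GG K.j K.m P.natDegree P) a β) :
    K.Q B a ((β : ℝ) - K.j * P.natDegree + (K.μ - K.J) * a + K.p * B / K.S) := by
  have h1 := K.m_eq
  have h2 := K.p_pos
  have h3 := K.q_pos
  have h4 := K.S_pos
  have h5 := K.r_eq
  have h6 := K.hZ
  have h7 := K.p_lt
  have hJ := K.J_eq
  have hm := K.m_pos
  have hjμ : K.μ ≤ K.j := K.hp.le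
  have hμ0 := K.hμ
  have hν0 := K.hν
  obtain ⟨D, hD⟩ : ∃ D : ℕ, D = P.natDegree := ⟨_, rfl⟩
  rw [← hD] at h0 hl ⊢
  obtain ⟨G, hG⟩ : ∃ G : F[X][X], G = GG K.j K.m D P := ⟨_, rfl⟩
  have hWL : WL K.μ (D * K.μ) G := by rw [hG]; exact WL.GG hjμ hT
  have hev : G.eval (X ^ K.j) = P.coeff D * (1 + X ^ K.m) ^ D := by rw [hG]; exact eval_GG D P
  have hev0 := eval_zero_GG (j := K.j) (m := K.m) D P
  rw [← hG] at h0 hl hev0
  -- the first monomial
  have hPD : P.coeff D ≠ 0 := by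
    rw [hD, coeff_natDegree]
    exact leadingCoeff_ne_zero.2 hP
  have hAD : ((1 + X ^ K.m : F[X]) ^ D).coeff 0 ≠ 0 := by
    rw [coeff_zero_eq_eval_zero, eval_pow, ← coeff_zero_eq_eval_zero, A_coeff_zero hm, one_pow]
    exact one_ne_zero
  have hAD0 : ((1 + X ^ K.m : F[X]) ^ D) ≠ 0 := pow_ne_zero _ (A_ne hm)
  obtain ⟨e, he1, he2⟩ : ∃ e : ℕ, (G.eval (X ^ K.j)).coeff e ≠ 0 ∧ (P.coeff D).coeff e ≠ 0 := by
    refine ⟨(P.coeff D).natTrailingDegree, ?_, ?_⟩
    · rw [hev]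
      have e1 : (P.coeff D * (1 + X ^ K.m) ^ D).natTrailingDegree =
          (P.coeff D).natTrailingDegree := by
        rw [natTrailingDegree_mul hPD hAD0, natTrailingDegree_eq_zero.2 (Or.inr hAD), add_zero]
      rw [← e1]
      exact trailingCoeff_nonzero_iff_nonzero.2 (mul_ne_zero hPD hAD0)
    · exact trailingCoeff_nonzero_iff_nonzero.2 hPD
  have he3 := (hT D e he2).2
  obtain ⟨a1, hja, ha1⟩ : ∃ a1 : ℕ, K.j * a1 ≤ e ∧ (G.coeff a1).coeff (e - K.j * a1) ≠ 0 := by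
    rw [eval_eq_sum_range, finset_sum_coeff] at he1
    obtain ⟨i, -, hi⟩ := Finset.exists_ne_zero_of_sum_ne_zero he1
    rw [← pow_mul, coeff_mul_X_pow'] at hi
    split_ifs at hi with h
    · exact ⟨i, h, hi⟩
    · exact absurd rfl hi
  have hs1 := hWL a1 _ ha1
  have hlam1 := hl.le ha1
  rw [Nat.cast_sub hja] at hs1 hlam1
  push_cast at hs1 hlam1
  -- the second monomial
  obtain ⟨β2, hβ2⟩ : ∃ β2 : ℕ, (G.coeff 0).coeff β2 ≠ 0 := by
    rw [← coeff_zero_eq_eval_zero] at h0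
    exact ⟨_, by rw [coeff_natDegree]; exact leadingCoeff_ne_zero.2 h0⟩
  have hlam2 := hl.le hβ2
  have hβ2' : (β2 : ℝ) ≤ B + (K.m - K.ν) * D := by
    rw [coeff_zero_eq_eval_zero, hev0, finset_sum_coeff] at hβ2
    obtain ⟨b, hb, h8⟩ := Finset.exists_ne_zero_of_sum_ne_zero hβ2
    rw [Finset.mem_range] at hb
    obtain ⟨x, y, hx, hy, rfl⟩ := exists_of_coeff_mul h8
    obtain ⟨k, l, hk, hl', rfl⟩ := exists_of_coeff_mul hx
    have g1 := (hT b k hk).2
    have g2 : l ≤ K.m * b := by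
      have := le_natDegree_of_ne_zero hl'
      refine this.trans (natDegree_pow_le.trans ?_)
      rw [mul_comm]
      refine Nat.mul_le_mul_right b ?_
      compute_degree
    have g3 : y = K.j * (D - b) := by
      rw [← pow_mul, coeff_X_pow] at hy
      split_ifs at hy with h
      · exact h
      · exact absurd rfl hy
    have g2' : (l : ℝ) ≤ K.m * b := by exact_mod_cast g2
    have g3' : (y : ℝ) = K.j * (D - b) := by
      rw [g3]; push_cast [Nat.cast_sub (show b ≤ D by omega)]; ring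
    have hbD : (b : ℝ) ≤ D := by exact_mod_cast (show b ≤ D by omega)
    have g4 : 0 ≤ K.q * (D - b) := mul_nonneg h3.le (by linarith)
    have hq : K.q = K.m - K.j - K.ν := rfl
    rw [hq] at g4
    push_cast
    rw [g3']
    linarith
  have hs0 := hWL a β hl.1
  -- the quadrilateral
  obtain ⟨H, hH⟩ : ∃ H : ℝ, H = B / K.S := ⟨_, rfl⟩
  have hSH : K.S * H = B := by rw [hH]; field_simp
  have hpBS : K.p * B / K.S = K.p * H := by rw [hH]; ring
  obtain ⟨b, hb⟩ : ∃ b : ℝ, b = (β : ℝ) - K.j * D + K.μ * a + K.p * H := ⟨_, rfl⟩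
  have hpdef : K.p = K.j - K.μ := rfl
  have hqdef : K.q = K.m - K.j - K.ν := rfl
  have hSdef : K.S = K.μ + K.ν := rfl
  have hr0 : 0 ≤ K.r - K.μ := by linarith
  have key := arith_Q (p := K.p) (q := K.q) (S := K.S) (Z := K.Z) (m := K.m) (a := a) (b := b)
    (y := H - D) (H := H) (r := K.r - K.μ) h2 h3.le h4 h1 h6 h5 (Nat.cast_nonneg a) ?_ ?_ ?_
  · obtain ⟨k1, k2, k3⟩ := key
    have hSc : K.S * ((β : ℝ) - K.j * D + (K.μ - K.J) * a + K.p * B / K.S) =
        K.S * b - K.p * (K.p + K.q) * a := by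
      rw [hb, hpBS]
      linear_combination (-(a : ℝ)) * hJ
    refine ⟨Nat.cast_nonneg a, ?_, ?_, ?_⟩
    · rw [hSc]; linarith
    · rw [mul_comm K.S K.Z, mul_assoc K.Z, hSc, ← hSH]; linarith
    · rw [mul_comm K.S (K.Z - K.m ^ 2), mul_assoc (K.Z - K.m ^ 2), hSc, ← hSH]; linarith
  · -- the first bound
    have e1 : (K.r - K.μ) * a + b = (K.r * a + β) - K.μ * D + K.p * (H - D) := by
      rw [hb, hpdef]; ring
    obtain ⟨s1, hs1'⟩ : ∃ s1 : ℝ, s1 = K.μ * a1 + (e - K.j * a1) - D * K.μ := ⟨_, rfl⟩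
    have hs10 : 0 ≤ s1 := by rw [hs1']; linarith
    have e2 : K.r * a1 + (e - K.j * a1) - K.μ * D = (K.r - K.μ) * a1 + s1 := by
      rw [hs1']; ring
    have e3 : K.p * a1 + s1 ≤ K.S * (H - D) := by
      rw [mul_sub, hSH, hs1', hpdef, hSdef]
      linarith
    have e4 : K.p * s1 ≤ (K.r - K.μ) * s1 := mul_le_mul_of_nonneg_right h7.le hs10
    have e5 : K.p * ((K.r - K.μ) * a1 + s1) ≤ (K.r - K.μ) * (K.S * (H - D)) := by
      have := mul_le_mul_of_nonneg_left e3 hr0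
      linarith
    have e6 : (K.r - K.μ) * (K.S * (H - D)) = (K.Z - K.p * (K.p + K.q)) * (H - D) := by
      rw [← h5]; ring
    have e7 : K.p * (K.r * a + β - K.μ * D) ≤ K.p * ((K.r - K.μ) * a1 + s1) := by
      apply mul_le_mul_of_nonneg_left _ h2.le
      rw [← e2]
      linarith
    rw [e1]
    rw [e6] at e5
    nlinarith
  · have e1 : (K.r - K.μ) * a + b = (K.r * a + β) - K.μ * D + K.p * (H - D) := by
      rw [hb, hpdef]; ring
    rw [e1]
    have e2 : K.r * a + β ≤ B + (K.m - K.ν) * D := by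
      have : K.r * ((0 : ℕ) : ℝ) + β2 = β2 := by simp
      linarith
    have e3 : (K.m : ℝ) * H = K.p * H + K.q * H + B := by rw [h1, ← hSH]; ring
    rw [e3]
    have e4 : (K.m - K.ν) * (D : ℝ) - K.μ * D - K.p * D = K.q * D := by
      rw [hpdef, hqdef]; ring
    linarith
  · have e1 : b = (K.μ * a + β - D * K.μ) + K.p * (H - D) := by
      rw [hb, hpdef]; ring
    rw [e1]
    linarith

end Pool.Agent.J6H57.VT
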