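import Pool.Agent.J6H57.VT.Defs

/-!
# The vertex move: the statements of the modules
-/

set_option autoImplicit false

namespace Pool.Agent.J6H57.VT

open Pool.Agent.TH176.Nag Pool.Agent.TH880.NB Polynomial

/-- module `Fill`: up to the factor `1 - η` all lattice points of the quadrilateral are leading
exponents, after a translation -/
def FillT : Prop :=
  ∀ K : Par, Irrational K.r → ∀ η : ℝ, 0 < η → ∃ B0 : ℝ, ∀ B : ℝ, B0 ≤ B → ∀ t : ℝ,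
    ∃ i k : ℤ, ∀ (F : Type) [Field F], ∀ z ∈ K.QQ ((1 - η) * B) t, (z.1 + i, z.2 + k) ∈ Lds F K B

/-- module `Trans`: transfer of ranks from leading exponents to polynomials -/
def TransT : Prop :=
  ∀ (K : Par) (B : ℝ) (T : Set (ℤ × ℤ)), (∀ (F : Type) [Field F], T ⊆ Lds F K B) →
    ∀ {ι : Type} (w : ι → ℕ) (N : ℕ), Rk w T N → Rk w (Reg 0 B K.μ K.ν) N

/-- the vertex move for ranks (from `Fill` and `Trans`) -/
def VertexT : Prop :=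
  ∀ K : Par, Irrational K.r → ∀ η : ℝ, 0 < η → ∃ B0 : ℝ, ∀ B : ℝ, B0 ≤ B → ∀ t : ℝ,
    ∀ {ι : Type} (w : ι → ℕ) (N : ℕ), Rk w (K.QQ ((1 - η) * B) t) N →
      Rk w (Reg 0 B K.μ K.ν) N

/-- the discrete move (module `Move`) -/
def MoveBT : Prop :=
  ∀ (n j m : ℕ) (μ ν : ℝ), 0 ≤ μ → 0 ≤ ν → 0 < μ + ν → μ < j → j + ν < m →
    PA n ((j - μ) * (m - (μ + ν)) / (μ + ν) - μ)
      (m ^ 2 / (μ + ν) - ((j - μ) * (m - (μ + ν)) / (μ + ν) - μ)) → PA n μ ν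

/-- the free move (module `Move`) -/
def MoveAT : Prop :=
  ∀ (n j m : ℕ) (k : ℤ) (μ ν μ' : ℝ), 0 ≤ μ → 0 ≤ ν → 0 < μ + ν → μ < j → j + ν < m →
    (j - μ) * (m - (μ + ν)) / (μ + ν) - μ = k → 0 < μ' →
    μ' < (j - μ) * (m - j - ν) / (μ + ν) →
    PA n μ' (m ^ 2 / (μ + ν) - μ') → PA n μ ν

/-- module `Arith` -/
def ArithT : Prop :=
  ∃ C : ℕ, ∀ δ n u : ℕ, 2 ≤ u → C * (u + 1) ^ 4 ≤ δ → δ * (u + 1) ^ 2 ≤ n * u ^ 2 → PA n 0 δ

end Pool.Agent.J6H57.VT
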