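import Pool.Agent.J6H57.VT.Stm

/-!
# The vertex move: the statements of the parts of `FillT`
-/

set_option autoImplicit false

namespace Pool.Agent.J6H57.VT

open Pool.Agent.TH176.Nag Pool.Agent.TH880.NB Polynomial

/-- all leading exponents are in the quadrilateral -/
def ContainT : Prop :=
  ∀ K : Par, Irrational K.r → ∀ (F : Type) [Field F] (B : ℝ),
    Lds F K B ⊆ K.QQ B (K.p * B / K.S)

/-- leading exponents add up -/
def AddT : Prop :=
  ∀ K : Par, Irrational K.r → ∀ (F : Type) [Field F] (B B' : ℝ) (z z' : ℤ × ℤ),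
    z ∈ Lds F K B → z' ∈ Lds F K B' → z + z' ∈ Lds F K (B + B')

/-- there are as many leading exponents as monomials -/
def DimT : Prop :=
  ∀ K : Par, Irrational K.r → ∀ (F : Type) [Field F] (B : ℝ), (Lds F K B).Finite →
    (Reg 0 B K.μ K.ν).ncard ≤ (Lds F K B).ncard

/-- the quadrilateral has the same area as the triangle -/
def CountT : Prop :=
  ∀ K : Par, ∀ ε : ℝ, 0 < ε → ∃ B0 : ℝ, ∀ B : ℝ, B0 ≤ B →
    (K.QQ B (K.p * B / K.S)).Finite ∧
      ((K.QQ B (K.p * B / K.S)).ncard : ℝ) ≤ (Reg 0 B K.μ K.ν).ncard + ε * B ^ 2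

end Pool.Agent.J6H57.VT
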